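import Pool.Agent.Lib.MP_531058_lc.FL.Defs

/-!
# FL.Chk: the kernel check of the finite lemma, on numeric codes

Codes: `8` is the empty word, `4 f + 2 k1 + k0` the class `S1.cl f k1 k0`. Only `Nat` operations
which the kernel computes on literals are used.
-/

set_option autoImplicit false

namespace Pool.Agent.Lib.MP_531058_lc.FL

/-- multiplication table, 4 bits per entry -/
def TM : ℕ := 18075196962015812653925224090103571472574101686066233009319135487894137422959421889124612016517648

/-- `Θ (W * u)`, bit `8 u + W` -/
def HT : ℕ := 3607751589969087838665

/-- product of codes -/
def mulN (a b : ℕ) : ℕ := Nat.land (Nat.shiftRight TM (Nat.mul 4 (Nat.add (Nat.mul 9 a) b))) 15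

/-- the 8 bits `Θ (W * u)` -/
def HN (u : ℕ) : ℕ := Nat.land (Nat.shiftRight HT (Nat.mul 8 u)) 255

/-- `bar` on codes -/
def barN (a : ℕ) : ℕ := match Nat.beq a 8 with
  | true => 8
  | false => Nat.xor a 4

/-- codes of `Z` and `Z0` -/
structure ZN where
  z00 : ℕ
  z01 : ℕ
  z10 : ℕ
  z11 : ℕ
  e0 : ℕ
  e1 : ℕ

def mkZ (x w e : ℕ) : ZN := ⟨x, w, barN w, barN x, e, barN e⟩

def runN (z : ZN) : List (Option Bool) → Bool → ℕ → Bool → ℕ
  | [], false, p, false => mulN z.z00 p
  | [], false, p, true => mulN z.z01 p
  | [], true, p, false => mulN z.z10 p
  | [], true, p, true => mulN z.z11 p
  | none :: l, d, p, t => runN z l d p t
  | some false :: l, false, p, t => runN z l false (mulN z.z00 p) t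
  | some true :: l, false, p, t => runN z l true (mulN z.z01 p) t
  | some false :: l, true, p, t => runN z l false (mulN z.z10 p) t
  | some true :: l, true, p, t => runN z l true (mulN z.z11 p) t

/-- word of a list of optional directions and a top direction -/
def wordN (z : ZN) : List (Option Bool) → Bool → ℕ
  | [], false => z.e0
  | [], true => z.e1
  | none :: l, t => wordN z l t
  | some false :: l, t => runN z l false z.e0 t
  | some true :: l, t => runN z l true z.e1 t

/-- a candidate: direction lists of `(σ, τ)`, `(σ, τ')`, `(τ, ρ)`, `(τ', ρ)` on five inner levels,
bottom level first -/
structure Cand where
  l1 : List (Option Bool)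
  l2 : List (Option Bool)
  l3 : List (Option Bool)
  l4 : List (Option Bool)

/-- the 13 candidates (bit masks of `σ, ρ, τ, τ'`: 18,18,1,13; 2,6,9,25; 11,11,16,20; 5,21,8,10;
0,4,11,27; 4,20,9,11; 5,1,0,10; 8,10,5,21; 17,17,2,14; 20,20,3,11; 2,10,20,21; 6,22,8,9; 9,25,2,6) -/
def cands : List Cand := [
  ⟨[some false, some true, none, none, some true],
    [some false, some true, some false, some false, some true],
    [some true, some false, none, none, some false],
    [some true, some false, some true, some true, some false]⟩,
  ⟨[some false, some true, none, some false, none],
    [some false, some true, none, some false, some false],
    [some true, some false, some false, some true, none],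
    [some true, some false, some false, some true, some true]⟩,
  ⟨[some true, some true, none, some true, some false],
    [some true, some true, some false, some true, some false],
    [some false, some false, none, some false, some true],
    [some false, some false, some true, some false, some true]⟩,
  ⟨[some true, none, some true, some false, none],
    [some true, some false, some true, some false, none],
    [some false, none, some false, some true, some false],
    [some false, some true, some false, some true, some false]⟩,
  ⟨[some false, some false, none, some false, none],
    [some false, some false, none, some false, some false],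
    [some true, some true, some false, some true, none],
    [some true, some true, some false, some true, some true]⟩,
  ⟨[some false, none, some true, some false, none],
    [some false, some false, some true, some false, none],
    [some true, none, some false, some true, some false],
    [some true, some true, some false, some true, some false]⟩,
  ⟨[some true, none, some true, none, none],
    [some true, some false, some true, some false, none],
    [some false, none, none, none, none],
    [some false, some true, none, some true, none]⟩,
  ⟨[some false, none, some false, some true, none],
    [some false, none, some false, some true, some false],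
    [some true, some false, some true, some false, none],
    [some true, some false, some true, some false, some true]⟩,
  ⟨[some true, some false, none, none, some true],
    [some true, some false, some false, some false, some true],
    [some false, some true, none, none, some false],
    [some false, some true, some true, some true, some false]⟩,
  ⟨[some false, some false, some true, none, some true],
    [some false, some false, some true, some false, some true],
    [some true, some true, some false, none, some false],
    [some true, some true, some false, some true, some false]⟩,
  ⟨[none, some true, some false, none, some false],
    [some false, some true, some false, none, some false],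
    [none, some false, some true, some false, some true],
    [some true, some false, some true, some false, some true]⟩,
  ⟨[none, some true, some true, some false, none],
    [some false, some true, some true, some false, none],
    [none, some false, some false, some true, some false],
    [some true, some false, some false, some true, some false]⟩,
  ⟨[some true, some false, none, some true, none],
    [some true, some false, some false, some true, none],
    [some false, some true, none, some false, some false],
    [some false, some true, some true, some false, some false]⟩]

/-- one candidate for a fixed `W` (number `< 8`); `rem` is the mask of the remaining `V` -/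
def stepN (W u1 u2 v1 v2 rem : ℕ) : ℕ :=
  match Nat.beq (Nat.land (Nat.shiftRight (HN u1) W) 1) 1,
    Nat.beq (Nat.land (Nat.shiftRight (HN u2) W) 1) 1 with
  | true, false => Nat.land rem (Nat.xor 255 (Nat.land (HN v1) (Nat.xor 255 (HN v2))))
  | false, true => Nat.land rem (Nat.xor 255 (Nat.land (HN v2) (Nat.xor 255 (HN v1))))
  | _, _ => rem

/-- run through the candidates -/
def loopN (z : ZN) (W : ℕ) : List Cand → ℕ → Bool
  | [], rem => Nat.beq rem 0
  | c :: cs, rem =>
    match Nat.beq rem 0 with
    | true => true
    | false =>
      loopN z W cs (stepN W (wordN z c.l1 false) (wordN z c.l2 false) (wordN z c.l3 true)
        (wordN z c.l4 true) rem)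

/-- the check for all `W, V` -/
def chkZ (z : ZN) : Bool :=
  [0, 1, 2, 3, 4, 5, 6, 7].all fun W => loopN z W cands 255

def chkX (x : ℕ) : Bool :=
  [0, 1, 2, 3, 4, 5, 6, 7].all fun w => [0, 1, 2, 3, 4, 5, 6, 7, 8].all fun e => chkZ (mkZ x w e)

theorem chk0 : chkX 0 = true := by decide +kernel

theorem chk1 : chkX 1 = true := by decide +kernel

theorem chk2 : chkX 2 = true := by decide +kernel

theorem chk3 : chkX 3 = true := by decide +kernel

theorem chk4 : chkX 4 = true := by decide +kernel

theorem chk5 : chkX 5 = true := by decide +kernel

theorem chk6 : chkX 6 = true := by decide +kernel

theorem chk7 : chkX 7 = true := by decide +kernel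


end Pool.Agent.Lib.MP_531058_lc.FL
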