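import Mathlib

/-!
# FL.Ram: a finite Ramsey theorem for six points
-/

set_option autoImplicit false

namespace Pool.Agent.Lib.MP_531058_lc.FL

open Finset

theorem end_hom (C : Type) [Fintype C] [DecidableEq C] (k : ℕ) :
    ∃ N : ℕ, ∀ (S : Finset ℕ), N ≤ S.card → ∀ f : ℕ → ℕ → C,
      ∃ (a : ℕ → ℕ) (col : ℕ → C), (∀ i < k, a i ∈ S) ∧
        (∀ i j, i < j → j < k → a i < a j ∧ f (a i) (a j) = col i) := by
  classical
  induction k with
  | zero =>
    refine ⟨1, fun S hS f => ⟨fun _ => 0, fun _ => f 0 0, ?_, ?_⟩⟩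
    · intro i hi; omega
    · intro i j _ hj; omega
  | succ k ih =>
    obtain ⟨N, hN⟩ := ih
    refine ⟨Fintype.card C * N + 1, fun S hS f => ?_⟩
    have hne : S.Nonempty := by
      rw [← Finset.card_pos]; omega
    set x := S.min' hne with hx
    have hcard : Fintype.card C * N ≤ (S.erase x).card := by
      rw [Finset.card_erase_of_mem (S.min'_mem hne)]; omega
    obtain ⟨c, -, hc⟩ := Finset.exists_le_card_fiber_of_mul_le_card_of_maps_to
      (s := S.erase x) (t := (Finset.univ : Finset C)) (f := fun y => f x y) (n := N)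
      (fun _ _ => Finset.mem_univ _) ⟨f 0 0, Finset.mem_univ _⟩
      (by rw [Finset.card_univ]; exact hcard)
    obtain ⟨a, col, ha, hf⟩ := hN _ hc f
    refine ⟨fun i => if i = 0 then x else a (i - 1), fun i => if i = 0 then c else col (i - 1),
      ?_, ?_⟩
    · intro i hi
      by_cases h0 : i = 0
      · simp only [h0, if_true]; exact S.min'_mem hne
      · simp only [h0, if_false]
        have := ha (i - 1) (by omega)
        rw [Finset.mem_filter] at this
        exact Finset.mem_of_mem_erase this.1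
    · intro i j hij hj
      have hj0 : j ≠ 0 := by omega
      have hmem := ha (j - 1) (by omega)
      rw [Finset.mem_filter, Finset.mem_erase] at hmem
      by_cases h0 : i = 0
      · simp only [h0, if_true, hj0, if_false]
        refine ⟨?_, hmem.2⟩
        exact lt_of_le_of_ne (S.min'_le _ hmem.1.2) (Ne.symm hmem.1.1)
      · simp only [h0, hj0, if_false]
        exact hf (i - 1) (j - 1) (by omega) (by omega)

/-- six homogeneous points below `Q` for a colouring of pairs and a colouring of points -/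
theorem ramsey6 (C D : Type) [Fintype C] [DecidableEq C] [Fintype D] [DecidableEq D] :
    ∃ Q : ℕ, ∀ (f : ℕ → ℕ → C) (g : ℕ → D), ∃ (h : ℕ → ℕ) (c : C) (d : D),
      (∀ i j, i < j → j ≤ 5 → h i < h j) ∧ (∀ i ≤ 5, h i < Q) ∧
      (∀ i j, i < j → j ≤ 5 → f (h i) (h j) = c) ∧ (∀ i ≤ 5, g (h i) = d) := by
  classical
  obtain ⟨N, hN⟩ := end_hom C (Fintype.card (C × D) * 6 + 1)
  refine ⟨N + 1, fun f g => ?_⟩
  obtain ⟨a, col, ha, hf⟩ := hN (Finset.range N) (by simp) f
  set K := Fintype.card (C × D) * 6 + 1 with hK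
  obtain ⟨⟨c, d⟩, -, hc⟩ := Finset.exists_le_card_fiber_of_mul_le_card_of_maps_to
    (s := Finset.range K) (t := (Finset.univ : Finset (C × D)))
    (f := fun i => (col i, g (a i))) (n := 6)
    (fun _ _ => Finset.mem_univ _) ⟨(f 0 0, g 0), Finset.mem_univ _⟩
    (by rw [Finset.card_univ, Finset.card_range]; omega)
  obtain ⟨T, hT, hT6⟩ := Finset.exists_subset_card_eq hc
  set u := T.orderEmbOfFin hT6 with hu
  have hmemT : ∀ i : Fin 6, u i ∈ T := fun i => T.orderEmbOfFin_mem hT6 i
  have hfil : ∀ i : Fin 6, u i < K ∧ col (u i) = c ∧ g (a (u i)) = d := by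
    intro i
    have := hT (hmemT i)
    rw [Finset.mem_filter, Finset.mem_range, Prod.mk.injEq] at this
    exact this
  have hex : ∀ i, i ≤ 5 → ∃ hi : i < 6, (if hi : i < 6 then a (u ⟨i, hi⟩) else 0) = a (u ⟨i, hi⟩) := by
    intro i hi
    have h6 : i < 6 := by omega
    exact ⟨h6, dif_pos h6⟩
  refine ⟨fun i => if hi : i < 6 then a (u ⟨i, hi⟩) else 0, c, d, ?_, ?_, ?_, ?_⟩
  · intro i j hij hj
    obtain ⟨hi', e1⟩ := hex i (by omega)
    obtain ⟨hj', e2⟩ := hex j hj
    simp only [e1, e2]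
    exact (hf _ _ (u.strictMono (Fin.mk_lt_mk.mpr hij)) (hfil ⟨j, hj'⟩).1).1
  · intro i hi
    obtain ⟨hi', e1⟩ := hex i hi
    simp only [e1]
    have := ha _ (hfil ⟨i, hi'⟩).1
    rw [Finset.mem_range] at this
    omega
  · intro i j hij hj
    obtain ⟨hi', e1⟩ := hex i (by omega)
    obtain ⟨hj', e2⟩ := hex j hj
    simp only [e1, e2]
    rw [(hf _ _ (u.strictMono (Fin.mk_lt_mk.mpr hij)) (hfil ⟨j, hj'⟩).1).2]
    exact (hfil ⟨i, hi'⟩).2.1
  · intro i hi
    obtain ⟨hi', e1⟩ := hex i hi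
    simp only [e1]
    exact (hfil ⟨i, hi'⟩).2.2

end Pool.Agent.Lib.MP_531058_lc.FL
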