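import Pool.Agent.Lib.MP_531058_lc.FL.Lev
import Pool.Agent.Lib.MP_531058_lc.FL.Ram

/-!
# FL.Core: the finite core of the proof that EM implies COH

`finite_core`: there is a standard number `Q` such that for all bar-symmetric families of words
`Z i j d d'` (`i < j < Q`, nonempty) and `Z0 i d` there is a top level `q < Q` such that for all
nonempty classes `W, V` there are states `σ, ρ` (top bit 0) and `τ, τ'` (top bit 1), with the
support of `σ, ρ` below `q` disjoint from the support of `τ, τ'` below `q`, with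
`Θ (W w(σ,τ)) = Θ (V w(τ,ρ)) = 1`, `Θ (W w(σ,τ')) = Θ (V w(τ',ρ)) = 0`.
-/

set_option autoImplicit false

namespace Pool.Agent.Lib.MP_531058_lc.FL

instance : Fintype S1 :=
  Fintype.ofEquiv (Option (Bool × Bool × Bool))
    { toFun := fun o => match o with
        | none => S1.one
        | some (f, k1, k0) => S1.cl f k1 k0
      invFun := fun s => match s with
        | S1.one => none
        | S1.cl f k1 k0 => some (f, k1, k0)
      left_inv := by rintro (_ | ⟨f, k1, k0⟩) <;> rfl
      right_inv := by rintro (_ | ⟨f, k1, k0⟩) <;> rfl }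

lemma disj_getD : ∀ (A B : List Bool), disj A B = true → ∀ i,
    ¬ (A.getD i false = true ∧ B.getD i false = true) := by
  intro A
  induction A with
  | nil => intro B _ i h; simp at h
  | cons a A ih =>
    intro B hd i h
    cases B with
    | nil => simp at h
    | cons b B =>
      simp only [disj, Bool.and_eq_true, Bool.not_eq_true', Bool.and_eq_false_iff] at hd
      cases i with
      | zero =>
        simp only [List.getD_cons_zero] at h
        rcases hd.1 with h1 | h1
        · rw [h1] at h; exact absurd h.1 (by decide)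
        · rw [h1] at h; exact absurd h.2 (by decide)
      | succ i =>
        simp only [List.getD_cons_succ] at h
        exact ih B hd.2 i h

lemma lift_disj {h : ℕ → ℕ} (hm : ∀ i j, i < j → j ≤ 5 → h i < h j) {A B : List Bool}
    (hd : disj A B = true) {ta tb : Bool} {j : ℕ} (hj : j < h 5) :
    ¬ (lift h A ta j = true ∧ lift h B tb j = true) := by
  by_cases hex : ∃ i < 5, j = h i
  · obtain ⟨i, hi, rfl⟩ := hex
    rw [lift_lev hm A ta hi, lift_lev hm B tb hi]
    exact disj_getD A B hd i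
  · push Not at hex
    have hne : ∀ i ≤ 5, j ≠ h i := by
      intro i hi
      rcases Nat.lt_or_ge i 5 with h1 | h1
      · exact hex i h1
      · have : i = 5 := by omega
        subst this; exact hj.ne
    rw [lift_out A ta hne]
    simp

theorem finite_core : ∃ Q : ℕ, ∀ (Z : ℕ → ℕ → Bool → Bool → S1) (Z0 : ℕ → Bool → S1),
    (∀ i j d d', i < j → j < Q → Z i j d d' ≠ 1) →
    (∀ i j d d', i < j → j < Q → Z i j (!d) (!d') = S1.bar (Z i j d d')) →
    (∀ i d, i < Q → Z0 i (!d) = S1.bar (Z0 i d)) →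
    ∃ q < Q, ∀ W V : S1, W ≠ 1 → V ≠ 1 → ∃ σ ρ τ τ' : ℕ → Bool,
      (σ q = false ∧ ρ q = false ∧ τ q = true ∧ τ' q = true) ∧
      (∀ j < q, ¬ (σ j = true ∧ τ j = true) ∧ ¬ (σ j = true ∧ τ' j = true) ∧
        ¬ (ρ j = true ∧ τ j = true) ∧ ¬ (ρ j = true ∧ τ' j = true)) ∧
      S1.th (W * word Z Z0 σ τ q) = true ∧ S1.th (V * word Z Z0 τ ρ q) = true ∧
      S1.th (W * word Z Z0 σ τ' q) = false ∧ S1.th (V * word Z Z0 τ' ρ q) = false := by
  obtain ⟨Q, hQ⟩ := ramsey6 (S1 × S1) S1
  refine ⟨Q, fun Z Z0 h1 h2 h3 => ?_⟩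
  obtain ⟨h, ⟨x, w⟩, e, hm, hlt, hc, hd⟩ := hQ (fun i j => (Z i j false false, Z i j false true))
    (fun i => Z0 i false)
  have hZ : ∀ i j, i < j → j ≤ 5 → ∀ d d', Z (h i) (h j) d d' = Zu x w d d' := by
    intro i j hij hj d d'
    have hcc := hc i j hij hj
    simp only [Prod.mk.injEq] at hcc
    have hb := h2 (h i) (h j) false d' (hm i j hij hj) (hlt j hj)
    have hb' := h2 (h i) (h j) false (!d') (hm i j hij hj) (hlt j hj)
    rw [Bool.not_not] at hb'
    cases d <;> cases d'
    · exact hcc.1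
    · exact hcc.2
    · rw [show Zu x w true false = S1.bar w from rfl, ← hcc.2]; exact hb'
    · rw [show Zu x w true true = S1.bar x from rfl, ← hcc.1]; exact hb'
  have hZ0 : ∀ i ≤ 5, ∀ d, Z0 (h i) d = Eu e d := by
    intro i hi d
    have hdd : Z0 (h i) false = e := hd i hi
    cases d
    · exact hdd
    · rw [show Eu e true = S1.bar e from rfl, ← hdd]; exact h3 (h i) false (hlt i hi)
  have hx : x ≠ 1 := by
    have := h1 (h 0) (h 1) false false (hm 0 1 (by omega) (by omega)) (hlt 1 (by omega))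
    rwa [hZ 0 1 (by omega) (by omega)] at this
  have hw : w ≠ 1 := by
    have := h1 (h 0) (h 1) false true (hm 0 1 (by omega) (by omega)) (hlt 1 (by omega))
    rwa [hZ 0 1 (by omega) (by omega)] at this
  refine ⟨h 5, hlt 5 le_rfl, fun W V hW hV => ?_⟩
  obtain ⟨q, hq, g1, g2, g3, g4⟩ := fin_uniform (e := e) hx hw hW hV
  obtain ⟨a1, a2, a3, a4, a5, a6, a7, a8⟩ := hq
  refine ⟨lift h q.s false, lift h q.r false, lift h q.t true, lift h q.t' true,
    ⟨lift_top _ _ _, lift_top _ _ _, lift_top _ _ _, lift_top _ _ _⟩, ?_, ?_, ?_, ?_, ?_⟩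
  · intro j hj
    exact ⟨lift_disj hm a5 hj, lift_disj hm a6 hj, lift_disj hm a7 hj, lift_disj hm a8 hj⟩
  · rw [word_lift hm hZ hZ0 a1 a3 (by decide)]; exact g1
  · rw [word_lift hm hZ hZ0 a3 a2 (by decide)]; exact g2
  · rw [word_lift hm hZ hZ0 a1 a4 (by decide)]; exact g3
  · rw [word_lift hm hZ hZ0 a4 a2 (by decide)]; exact g4

end Pool.Agent.Lib.MP_531058_lc.FL
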