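import Mathlib

/-!
# MP_531058_lc, FL.Defs: the finite monoid of word classes

A word over the two letters `<` and `>` is remembered by its first letter and its number of
alternations mod 4 (the last letter is then determined). `S1` is this 8 element semigroup with a
unit (the empty word) added. `S1.cl f k1 k0`: first letter `f` (`false` is `<`, `true` is `>`),
number of alternations `2 * k1 + k0` mod 4; the last letter is `xor f k0`.
`th` is the function `Θ` of the paper proof, `bar` exchanges the two letters.
-/

set_option autoImplicit false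

namespace Pool.Agent.Lib.MP_531058_lc.FL

inductive S1 where
  | one : S1
  | cl (f k1 k0 : Bool) : S1
deriving DecidableEq

namespace S1

/-- product of classes: concatenation of words -/
def mul : S1 → S1 → S1
  | one, b => b
  | cl f k1 k0, one => cl f k1 k0
  | cl f k1 k0, cl f' k1' k0' =>
    cl f (xor (xor k1 k1')
      ((k0 && xor (xor f k0) f') || (k0 && k0') || (xor (xor f k0) f' && k0')))
      (xor (xor k0 (xor (xor f k0) f')) k0')

/-- exchange `<` and `>` -/
def bar : S1 → S1
  | one => one
  | cl f k1 k0 => cl (!f) k1 k0

/-- `Θ`: `true` for the empty word, otherwise `[first is <] xor [alternations / 2 is odd]` -/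
def th : S1 → Bool
  | one => true
  | cl f k1 _ => xor (!f) k1

/-- the class of the one letter word `<` -/
def lt : S1 := cl false false false

/-- the class of the one letter word `>` -/
def gt : S1 := cl true false false

instance : Mul S1 := ⟨mul⟩

instance : One S1 := ⟨one⟩

lemma mul_def (a b : S1) : a * b = mul a b := rfl

lemma one_def : (1 : S1) = one := rfl

protected lemma one_mul (a : S1) : 1 * a = a := rfl

protected lemma mul_one (a : S1) : a * 1 = a := by
  cases a <;> rfl

protected lemma mul_assoc (a b c : S1) : a * b * c = a * (b * c) := by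
  rcases a with _ | ⟨a, a', a''⟩
  · rfl
  rcases b with _ | ⟨b, b', b''⟩
  · rfl
  rcases c with _ | ⟨c, c', c''⟩
  · rfl
  revert a a' a'' b b' b'' c c' c''
  decide

instance : Monoid S1 where
  mul_assoc := S1.mul_assoc
  one_mul := S1.one_mul
  mul_one := S1.mul_one

lemma bar_one : bar 1 = 1 := rfl

lemma bar_lt : bar lt = gt := rfl

lemma bar_gt : bar gt = lt := rfl

lemma bar_bar (a : S1) : bar (bar a) = a := by
  rcases a with _ | ⟨a, a', a''⟩
  · rfl
  · cases a <;> rfl

lemma bar_mul (a b : S1) : bar (a * b) = bar a * bar b := by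
  rcases a with _ | ⟨a, a', a''⟩
  · rfl
  rcases b with _ | ⟨b, b', b''⟩
  · rfl
  revert a a' a'' b b' b''
  decide

lemma th_bar {a : S1} (ha : a ≠ 1) : th (bar a) = !th a := by
  rcases a with _ | ⟨a, a', a''⟩
  · exact absurd rfl ha
  · cases a <;> cases a' <;> rfl

lemma mul_ne_one_left {a b : S1} (ha : a ≠ 1) : a * b ≠ 1 := by
  rcases a with _ | ⟨a, a', a''⟩
  · exact absurd rfl ha
  rcases b with _ | ⟨b, b', b''⟩ <;> intro h <;> cases h

lemma mul_ne_one_right {a b : S1} (hb : b ≠ 1) : a * b ≠ 1 := by
  rcases b with _ | ⟨b, b', b''⟩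
  · exact absurd rfl hb
  rcases a with _ | ⟨a, a', a''⟩ <;> intro h <;> cases h

lemma bar_ne_one {a : S1} (ha : a ≠ 1) : bar a ≠ 1 := by
  rcases a with _ | ⟨a, a', a''⟩
  · exact absurd rfl ha
  · intro h; cases h

end S1

/-- The word of a pair of states `σ, τ` (functions of the level). `Z i j d e` is the word between
the consecutive levels `i < j` where `σ, τ` differ, with `d = σ i`, `e = σ j`; `Z0 i d` is the word
below the first such level. `stp n` processes the levels `< n`; its value is `none` if `σ` and `τ`
agree on them and otherwise `some (i, d, p)` with the last level `i < n` where they differ,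
`d = σ i`, and the product `p` of the words below `i`. -/
def stp (Z : ℕ → ℕ → Bool → Bool → S1) (Z0 : ℕ → Bool → S1) (σ τ : ℕ → Bool) :
    ℕ → Option (ℕ × Bool × S1)
  | 0 => none
  | n + 1 =>
    if σ n = τ n then stp Z Z0 σ τ n
    else match stp Z Z0 σ τ n with
      | none => some (n, σ n, Z0 n (σ n))
      | some (i, d, p) => some (n, σ n, Z i n d (σ n) * p)

/-- the word below level `q` (a level where `σ, τ` differ) -/
def word (Z : ℕ → ℕ → Bool → Bool → S1) (Z0 : ℕ → Bool → S1) (σ τ : ℕ → Bool) (q : ℕ) : S1 :=
  match stp Z Z0 σ τ (q + 1) with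
  | none => 1
  | some (_, _, p) => p

end Pool.Agent.Lib.MP_531058_lc.FL
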