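import Pool.Agent.Lib.MP_531058_lc.FL.Uni

/-!
# FL.Lev: the word of two states supported on six homogeneous levels
-/

set_option autoImplicit false

namespace Pool.Agent.Lib.MP_531058_lc.FL

/-- update at level `j` by an optional direction -/
def upd (Z : ℕ → ℕ → Bool → Bool → S1) (Z0 : ℕ → Bool → S1) (j : ℕ) :
    Option (ℕ × Bool × S1) → Option Bool → Option (ℕ × Bool × S1)
  | s, none => s
  | none, some d => some (j, d, Z0 j d)
  | some (i, d0, p), some d => some (j, d, Z i j d0 d * p)

lemma stp_succ (Z : ℕ → ℕ → Bool → Bool → S1) (Z0 : ℕ → Bool → S1) (σ τ : ℕ → Bool) (n : ℕ) :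
    stp Z Z0 σ τ (n + 1) =
      upd Z Z0 n (stp Z Z0 σ τ n) (if σ n = τ n then none else some (σ n)) := by
  rw [stp]
  split_ifs with h
  · rw [upd]
  · rcases stp Z Z0 σ τ n with _ | ⟨i, d, p⟩ <;> rfl

lemma stp_const {Z : ℕ → ℕ → Bool → Bool → S1} {Z0 : ℕ → Bool → S1} {σ τ : ℕ → Bool}
    {a b : ℕ} (hab : a ≤ b) (h : ∀ j, a ≤ j → j < b → σ j = τ j) :
    stp Z Z0 σ τ b = stp Z Z0 σ τ a := by
  induction b, hab using Nat.le_induction with
  | base => rfl
  | succ b hb ih =>
    rw [stp_succ, if_pos (h b hb (Nat.lt_succ_self b)), upd]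
    exact ih fun j h1 h2 => h j h1 (Nat.lt_succ_of_lt h2)

/-- state with the bits `A` on the levels `h 0, .., h 4`, the bit `t` on `h 5`, and 0 elsewhere -/
def lift (h : ℕ → ℕ) (A : List Bool) (t : Bool) (j : ℕ) : Bool :=
  if j = h 5 then t
  else (List.range 5).any fun i => decide (j = h i) && A.getD i false

lemma lift_top (h : ℕ → ℕ) (A : List Bool) (t : Bool) : lift h A t (h 5) = t := by
  simp [lift]

lemma lift_lev {h : ℕ → ℕ} (hm : ∀ i j, i < j → j ≤ 5 → h i < h j) (A : List Bool) (t : Bool)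
    {i : ℕ} (hi : i < 5) : lift h A t (h i) = A.getD i false := by
  have h5 : h i ≠ h 5 := (hm i 5 hi le_rfl).ne
  have hinj : ∀ k < 5, h i = h k → i = k := by
    intro k hk he
    rcases lt_trichotomy i k with hlt | heq | hgt
    · exact absurd he (hm i k hlt hk.le).ne
    · exact heq
    · exact absurd he (hm k i hgt hi.le).ne'
  unfold lift
  rw [if_neg h5]
  cases hA : A.getD i false with
  | true =>
    rw [List.any_eq_true]
    exact ⟨i, List.mem_range.mpr hi, by rw [hA]; simp⟩
  | false =>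
    rw [List.any_eq_false]
    intro k hk
    rw [List.mem_range] at hk
    by_cases he : h i = h k
    · rw [← hinj k hk he, hA]; simp
    · simp [he]

lemma lift_out {h : ℕ → ℕ} (A : List Bool) (t : Bool) {j : ℕ} (hj : ∀ i ≤ 5, j ≠ h i) :
    lift h A t j = false := by
  unfold lift
  rw [if_neg (hj 5 le_rfl), List.any_eq_false]
  intro k hk
  rw [List.mem_range] at hk
  simp [hj k hk.le]

/-- the states correspond -/
def Rel (h : ℕ → ℕ) (k : ℕ) : Option (ℕ × Bool × S1) → Option (Bool × S1) → Prop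
  | none, none => True
  | some (i, d, p), some (d', p') => (∃ i' < k, i = h i') ∧ d = d' ∧ p = p'
  | _, _ => False

lemma Rel.step {Z : ℕ → ℕ → Bool → Bool → S1} {Z0 : ℕ → Bool → S1} {h : ℕ → ℕ} {x w e : S1}
    {k : ℕ} (hk : k ≤ 5) (hZ : ∀ i j, i < j → j ≤ 5 → ∀ d d', Z (h i) (h j) d d' = Zu x w d d')
    (hZ0 : ∀ i ≤ 5, ∀ d, Z0 (h i) d = Eu e d) {s : Option (ℕ × Bool × S1)}
    {s' : Option (Bool × S1)} (hr : Rel h k s s') (o : Option Bool) :
    Rel h (k + 1) (upd Z Z0 (h k) s o) (uS x w e s' o) := by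
  rcases s with _ | ⟨i, d, p⟩ <;> rcases s' with _ | ⟨d', p'⟩ <;> rcases o with _ | o
  · trivial
  · exact ⟨⟨k, Nat.lt_succ_self k, rfl⟩, rfl, hZ0 k hk o⟩
  · exact hr.elim
  · exact hr.elim
  · exact hr.elim
  · exact hr.elim
  · obtain ⟨⟨i', hi', rfl⟩, rfl, rfl⟩ := hr
    exact ⟨⟨i', Nat.lt_succ_of_lt hi', rfl⟩, rfl, rfl⟩
  · obtain ⟨⟨i', hi', rfl⟩, rfl, rfl⟩ := hr
    exact ⟨⟨k, Nat.lt_succ_self k, rfl⟩, rfl, by rw [hZ i' k hi' hk]⟩

theorem word_lift {Z : ℕ → ℕ → Bool → Bool → S1} {Z0 : ℕ → Bool → S1} {h : ℕ → ℕ} {x w e : S1}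
    (hm : ∀ i j, i < j → j ≤ 5 → h i < h j)
    (hZ : ∀ i j, i < j → j ≤ 5 → ∀ d d', Z (h i) (h j) d d' = Zu x w d d')
    (hZ0 : ∀ i ≤ 5, ∀ d, Z0 (h i) d = Eu e d) {A B : List Bool} (hA : A.length = 5)
    (hB : B.length = 5) {ta tb : Bool} (ht : ta ≠ tb) :
    word Z Z0 (lift h A ta) (lift h B tb) (h 5) = wordS x w e (dirsL A B) ta := by
  set σ := lift h A ta with hσ
  set τ := lift h B tb with hτ
  set o : ℕ → Option Bool := fun i =>
    if A.getD i false = B.getD i false then none else some (A.getD i false) with ho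
  -- the level states
  have key : ∀ k ≤ 5, Rel h k (stp Z Z0 σ τ (h k))
      (List.foldl (uS x w e) none (((List.range k).map o))) := by
    intro k
    induction k with
    | zero =>
      intro _
      rw [stp_const (Nat.zero_le (h 0)) (fun j _ hj => ?_)]
      · trivial
      · have hne : ∀ i ≤ 5, j ≠ h i := by
          intro i hi
          rcases Nat.eq_zero_or_pos i with rfl | hpos
          · exact hj.ne
          · exact (hj.trans (hm 0 i hpos hi)).ne
        rw [hσ, hτ, lift_out A ta hne, lift_out B tb hne]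
    | succ k ih =>
      intro hk
      have hk5 : k < 5 := hk
      have hlt := hm k (k + 1) (Nat.lt_succ_self k) hk
      rw [stp_const (show h k + 1 ≤ h (k + 1) from hlt) (fun j h1 h2 => ?_), stp_succ,
        List.range_succ, List.map_append, List.foldl_append]
      · have hr := Rel.step (k := k) (by omega) hZ hZ0 (ih (by omega)) (o k)
        have hd : (if σ (h k) = τ (h k) then none else some (σ (h k))) = o k := by
          rw [hσ, hτ, lift_lev hm A ta hk5, lift_lev hm B tb hk5]
        rw [hd]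
        simpa using hr
      · have hne : ∀ i ≤ 5, j ≠ h i := by
          intro i hi he
          rcases lt_trichotomy i k with h3 | h3 | h3
          · have := hm i k h3 (by omega); omega
          · subst h3; omega
          · rcases Nat.lt_or_ge (k + 1) i with h4 | h4
            · have := hm (k + 1) i h4 hi; omega
            · have : i = k + 1 := by omega
              subst this; omega
        rw [hσ, hτ, lift_out A ta hne, lift_out B tb hne]
  have h5 := Rel.step (k := 5) le_rfl hZ hZ0 (key 5 le_rfl) (some ta)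
  have htop : (if σ (h 5) = τ (h 5) then none else some (σ (h 5))) = some ta := by
    rw [hσ, hτ, lift_top, lift_top, if_neg ht]
  have hlist : dirsL A B = (List.range 5).map o := by
    match A, hA, B, hB with
    | [a0, a1, a2, a3, a4], _, [b0, b1, b2, b3, b4], _ =>
      simp [dirsL, ho, List.range_succ]
  unfold word wordS
  rw [stp_succ, htop, hlist, List.foldl_append]
  simp only [List.foldl_cons, List.foldl_nil]
  revert h5
  generalize upd Z Z0 (h 5) (stp Z Z0 σ τ (h 5)) (some ta) = s
  generalize uS x w e (List.foldl (uS x w e) none ((List.range 5).map o)) (some ta) = s'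
  intro h5
  rcases s with _ | ⟨i, d, p⟩ <;> rcases s' with _ | ⟨d', p'⟩
  · rfl
  · exact h5.elim
  · exact h5.elim
  · exact h5.2.2

end Pool.Agent.Lib.MP_531058_lc.FL
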