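import Pool.Agent.Lib.MP_531058_lc.FL.Chk

/-!
# FL.Uni: the finite lemma for uniform words, from the kernel check
-/

set_option autoImplicit false

namespace Pool.Agent.Lib.MP_531058_lc.FL

/-- code of a class -/
def code : S1 → ℕ
  | S1.one => 8
  | S1.cl f k1 k0 => 4 * f.toNat + 2 * k1.toNat + k0.toNat

lemma code_mul (a b : S1) : code (a * b) = mulN (code a) (code b) := by
  rcases a with _ | ⟨a, a', a''⟩ <;> rcases b with _ | ⟨b, b', b''⟩
  · rfl
  · revert b b' b''; decide
  · revert a a' a''; decide
  · revert a a' a'' b b' b''; decide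

lemma code_bar (a : S1) : code (S1.bar a) = barN (code a) := by
  rcases a with _ | ⟨a, a', a''⟩
  · rfl
  · revert a a' a''; decide

lemma code_lt (a : S1) : code a < 9 := by
  rcases a with _ | ⟨a, a', a''⟩
  · decide
  · revert a a' a''; decide

lemma code_lt8 {a : S1} (ha : a ≠ 1) : code a < 8 := by
  rcases a with _ | ⟨a, a', a''⟩
  · exact absurd rfl ha
  · revert a a' a''; decide

lemma HN_testBit (u : S1) {W : S1} (hW : W ≠ 1) :
    (HN (code u)).testBit (code W) = S1.th (W * u) := by
  rcases W with _ | ⟨a, a', a''⟩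
  · exact absurd rfl hW
  rcases u with _ | ⟨b, b', b''⟩
  · clear hW; revert a a' a''; decide
  · clear hW; revert a a' a'' b b' b''; decide

/-- uniform `Z` from the two values `x = Z(<,<)`, `w = Z(<,>)` (direction `false` is `<`) -/
def Zu (x w : S1) : Bool → Bool → S1
  | false, false => x
  | true, true => S1.bar x
  | false, true => w
  | true, false => S1.bar w

/-- uniform `Z0` -/
def Eu (e : S1) : Bool → S1
  | false => e
  | true => S1.bar e

/-- update of the state (last direction, product) by an optional direction -/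
def uS (x w e : S1) : Option (Bool × S1) → Option Bool → Option (Bool × S1)
  | s, none => s
  | none, some d => some (d, Eu e d)
  | some (d0, p), some d => some (d, Zu x w d0 d * p)

/-- product of a state -/
def valS : Option (Bool × S1) → S1
  | none => 1
  | some (_, p) => p

/-- word of a list of optional directions (bottom level first) and a top direction -/
def wordS (x w e : S1) (l : List (Option Bool)) (t : Bool) : S1 :=
  valS (List.foldl (uS x w e) none (l ++ [some t]))

lemma runN_eq (x w e : S1) (l : List (Option Bool)) (d t : Bool) (p : S1) :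
    code (valS (List.foldl (uS x w e) (some (d, p)) (l ++ [some t]))) =
      runN (mkZ (code x) (code w) (code e)) l d (code p) t := by
  induction l generalizing d p with
  | nil =>
    cases d <;> cases t <;> simp [uS, valS, runN, mkZ, Zu, code_mul, code_bar]
  | cons o l ih =>
    rcases o with _ | d'
    · simpa [uS, runN] using ih d p
    · have := ih d' (Zu x w d d' * p)
      rw [List.cons_append, List.foldl_cons]
      simp only [uS]
      rw [this]
      cases d <;> cases d' <;> simp [runN, mkZ, Zu, code_mul, code_bar]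

lemma wordN_eq (x w e : S1) (l : List (Option Bool)) (t : Bool) :
    code (wordS x w e l t) = wordN (mkZ (code x) (code w) (code e)) l t := by
  unfold wordS
  induction l with
  | nil => cases t <;> simp [uS, valS, wordN, mkZ, Eu, code_bar]
  | cons o l ih =>
    rcases o with _ | d'
    · simpa [uS, wordN] using ih
    · rw [List.cons_append, List.foldl_cons]
      simp only [uS]
      rw [runN_eq]
      cases d' <;> simp [wordN, mkZ, Eu, code_bar]

lemma bit_eq (m n : ℕ) : Nat.beq (Nat.land (Nat.shiftRight m n) 1) 1 = m.testBit n := by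
  have h1 : Nat.land (Nat.shiftRight m n) 1 = (m >>> n) % 2 := Nat.and_one_is_mod _
  rw [h1, Nat.testBit_eq_decide_div_mod_eq, Nat.shiftRight_eq_div_pow]
  rcases Nat.mod_two_eq_zero_or_one (m / 2 ^ n) with h | h <;> rw [h] <;> rfl

lemma land_testBit (a b V : ℕ) : (Nat.land a b).testBit V = (a.testBit V && b.testBit V) :=
  Nat.testBit_and a b V

lemma xor_testBit (a b V : ℕ) : (Nat.xor a b).testBit V = (xor (a.testBit V) (b.testBit V)) :=
  Nat.testBit_xor a b V

lemma t255 {V : ℕ} (hV : V < 8) : (255 : ℕ).testBit V = true := by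
  interval_cases V <;> rfl

/-- the four values have the alternating pattern -/
def Good (z : ZN) (W V : ℕ) (c : Cand) : Prop :=
  ((HN (wordN z c.l1 false)).testBit W = true ∧ (HN (wordN z c.l3 true)).testBit V = true ∧
    (HN (wordN z c.l2 false)).testBit W = false ∧ (HN (wordN z c.l4 true)).testBit V = false) ∨
  ((HN (wordN z c.l1 false)).testBit W = false ∧ (HN (wordN z c.l3 true)).testBit V = false ∧
    (HN (wordN z c.l2 false)).testBit W = true ∧ (HN (wordN z c.l4 true)).testBit V = true)

lemma loopN_good (z : ZN) (W V : ℕ) (hV : V < 8) :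
    ∀ (cs : List Cand) (rem : ℕ), loopN z W cs rem = true → rem.testBit V = true →
      ∃ c ∈ cs, Good z W V c := by
  intro cs
  induction cs with
  | nil =>
    intro rem h hr
    simp only [loopN] at h
    rw [Nat.eq_of_beq_eq_true h] at hr
    simp at hr
  | cons c cs ih =>
    intro rem h hr
    by_cases hg : Good z W V c
    · exact ⟨c, List.mem_cons_self, hg⟩
    · simp only [loopN] at h
      split at h
      · rename_i h0
        rw [Nat.eq_of_beq_eq_true h0] at hr
        simp at hr
      · obtain ⟨c', hc', hg'⟩ := ih _ h (by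
          unfold stepN
          rw [bit_eq, bit_eq]
          unfold Good at hg
          split
          · rename_i h1 h2
            rw [land_testBit, xor_testBit, land_testBit, xor_testBit, t255 hV, hr]
            rw [h1, h2] at hg
            cases h3 : (HN (wordN z c.l3 true)).testBit V <;>
              cases h4 : (HN (wordN z c.l4 true)).testBit V <;> simp_all
          · rename_i h1 h2
            rw [land_testBit, xor_testBit, land_testBit, xor_testBit, t255 hV, hr]
            rw [h1, h2] at hg
            cases h3 : (HN (wordN z c.l3 true)).testBit V <;>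
              cases h4 : (HN (wordN z c.l4 true)).testBit V <;> simp_all
          · exact hr)
        exact ⟨c', List.mem_cons_of_mem _ hc', hg'⟩

lemma chkX_all {x : ℕ} (hx : x < 8) : chkX x = true := by
  interval_cases x
  exacts [chk0, chk1, chk2, chk3, chk4, chk5, chk6, chk7]

lemma mem8 {n : ℕ} (hn : n < 8) : n ∈ [0, 1, 2, 3, 4, 5, 6, 7] := by
  interval_cases n <;> simp

lemma mem9 {n : ℕ} (hn : n < 9) : n ∈ [0, 1, 2, 3, 4, 5, 6, 7, 8] := by
  interval_cases n <;> simp

theorem good_exists {x w e W V : ℕ} (hx : x < 8) (hw : w < 8) (he : e < 9) (hW : W < 8)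
    (hV : V < 8) : ∃ c ∈ cands, Good (mkZ x w e) W V c := by
  have h := chkX_all hx
  unfold chkX at h
  have h1 := List.all_eq_true.mp h w (mem8 hw)
  have h2 := List.all_eq_true.mp h1 e (mem9 he)
  unfold chkZ at h2
  have h3 := List.all_eq_true.mp h2 W (mem8 hW)
  exact loopN_good _ W V hV cands 255 h3 (t255 hV)

/-- directions of two bit lists -/
def dirsL : List Bool → List Bool → List (Option Bool)
  | a :: A, b :: B => (if a = b then none else some a) :: dirsL A B
  | _, _ => []

/-- disjoint bit lists -/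
def disj : List Bool → List Bool → Bool
  | a :: A, b :: B => !(a && b) && disj A B
  | _, _ => true

/-- bit lists of a candidate -/
structure Quad where
  s : List Bool
  r : List Bool
  t : List Bool
  t' : List Bool

/-- lists of length 5 with the required disjointness -/
def Quad.okq (q : Quad) : Prop :=
  q.s.length = 5 ∧ q.r.length = 5 ∧ q.t.length = 5 ∧ q.t'.length = 5 ∧
    disj q.s q.t = true ∧ disj q.s q.t' = true ∧ disj q.r q.t = true ∧ disj q.r q.t' = true

instance (q : Quad) : Decidable q.okq := by unfold Quad.okq; infer_instance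

/-- bits of a number -/
def bitsL (n : ℕ) : List Bool :=
  [n.testBit 0, n.testBit 1, n.testBit 2, n.testBit 3, n.testBit 4]

def quads : List Quad :=
  [⟨bitsL 18, bitsL 18, bitsL 1, bitsL 13⟩, ⟨bitsL 2, bitsL 6, bitsL 9, bitsL 25⟩,
   ⟨bitsL 11, bitsL 11, bitsL 16, bitsL 20⟩, ⟨bitsL 5, bitsL 21, bitsL 8, bitsL 10⟩,
   ⟨bitsL 0, bitsL 4, bitsL 11, bitsL 27⟩, ⟨bitsL 4, bitsL 20, bitsL 9, bitsL 11⟩,
   ⟨bitsL 5, bitsL 1, bitsL 0, bitsL 10⟩, ⟨bitsL 8, bitsL 10, bitsL 5, bitsL 21⟩,
   ⟨bitsL 17, bitsL 17, bitsL 2, bitsL 14⟩, ⟨bitsL 20, bitsL 20, bitsL 3, bitsL 11⟩,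
   ⟨bitsL 2, bitsL 10, bitsL 20, bitsL 21⟩, ⟨bitsL 6, bitsL 22, bitsL 8, bitsL 9⟩,
   ⟨bitsL 9, bitsL 25, bitsL 2, bitsL 6⟩]

/-- candidate of a quadruple -/
def Quad.cand (q : Quad) : Cand := ⟨dirsL q.s q.t, dirsL q.s q.t', dirsL q.t q.r, dirsL q.t' q.r⟩

lemma cands_eq : cands = quads.map Quad.cand := by rfl

lemma quads_ok : ∀ q ∈ quads, q.okq := by decide

/-- THE FINITE LEMMA for uniform words. -/
theorem fin_uniform {x w e W V : S1} (hx : x ≠ 1) (hw : w ≠ 1) (hW : W ≠ 1) (hV : V ≠ 1) :
    ∃ q : Quad, q.okq ∧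
      S1.th (W * wordS x w e (dirsL q.s q.t) false) = true ∧
      S1.th (V * wordS x w e (dirsL q.t q.r) true) = true ∧
      S1.th (W * wordS x w e (dirsL q.s q.t') false) = false ∧
      S1.th (V * wordS x w e (dirsL q.t' q.r) true) = false := by
  obtain ⟨c, hc, hg⟩ := good_exists (code_lt8 hx) (code_lt8 hw) (code_lt e) (code_lt8 hW)
    (code_lt8 hV)
  rw [cands_eq, List.mem_map] at hc
  obtain ⟨q, hq, rfl⟩ := hc
  have hok := quads_ok q hq
  unfold Good at hg
  simp only [Quad.cand, ← wordN_eq, HN_testBit _ hW, HN_testBit _ hV] at hg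
  rcases hg with ⟨h1, h2, h3, h4⟩ | ⟨h1, h2, h3, h4⟩
  · exact ⟨q, hok, h1, h2, h3, h4⟩
  · refine ⟨⟨q.s, q.r, q.t', q.t⟩, ?_, h3, h4, h1, h2⟩
    obtain ⟨a1, a2, a3, a4, a5, a6, a7, a8⟩ := hok
    exact ⟨a1, a2, a4, a3, a6, a5, a8, a7⟩

end Pool.Agent.Lib.MP_531058_lc.FL
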